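import Pool.Agent.Helper97.SZ.Goals

/-!
# Project SZ (MP_126465_gt), packet FIN: the final theorem
-/

set_option autoImplicit false

open Set Filter Topology Metric
open scoped ContDiff

namespace Pool.Agent.Helper13.SZ

open Pool.Agent.Helper91.SY Pool.Agent.Helper97.SZ

/-- the derivative of a family of alternating forms is alternating -/
theorem fderiv_alt {n : ℕ} {Z : V n → V n →L[ℝ] V n →L[ℝ] ℝ} (hZ : ContDiff ℝ ∞ Z)
    (h : ∀ x u, Z x u u = 0) (x u v : V n) : fderiv ℝ Z x u v v = 0 := by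
  have hd : HasFDerivAt Z (fderiv ℝ Z x) x :=
    (hZ.differentiable (by simp) x).hasFDerivAt
  let ev : (V n →L[ℝ] V n →L[ℝ] ℝ) →L[ℝ] ℝ :=
    (ContinuousLinearMap.apply ℝ ℝ v).comp (ContinuousLinearMap.apply ℝ (V n →L[ℝ] ℝ) v)
  have h0 : HasFDerivAt (fun a => ev a) ev (Z x) :=
    ContinuousLinearMap.hasFDerivAt (𝕜 := ℝ) (E := V n →L[ℝ] V n →L[ℝ] ℝ) (F := ℝ) ev
  have h1 : HasFDerivAt (fun y => ev (Z y)) (ev.comp (fderiv ℝ Z x)) x := by
    refine HasFDerivAt.comp (𝕜 := ℝ) (F := V n →L[ℝ] V n →L[ℝ] ℝ) (G := ℝ) x ?_ hd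
    exact h0
  have h2 : (fun y => ev (Z y)) = fun _ => (0 : ℝ) := by
    funext y
    exact h y v
  rw [h2] at h1
  have h3 := h1.unique (hasFDerivAt_const (0 : ℝ) x)
  exact congrArg (fun l : V n →L[ℝ] ℝ => l u) h3

/-- the form is standard on the closed exterior -/
theorem far_of_outside {n : ℕ} {η : Form n} {R : ℝ} (hR : 0 < R)
    {B : V n → V n →L[ℝ] V n →L[ℝ] ℝ} {B0 : V n →L[ℝ] V n →L[ℝ] ℝ} (hs : Continuous B)
    (hB : ∀ x u v, B x u v = η x ![u, v]) (hB0 : ∀ u v, B0 u v = w0 u v) (ho : Outside η R) :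
    Far R B B0 := by
  have h1 : ∀ x, R < ‖x‖ → B x = B0 := by
    intro x hx
    refine ContinuousLinearMap.ext fun u => ContinuousLinearMap.ext fun v => ?_
    rw [hB, hB0, ho x hx]
  intro x hx
  have hx0 : 0 < ‖x‖ := lt_of_lt_of_le hR hx
  have ht : Tendsto (fun t : ℝ => B ((1 + t) • x)) (𝓝[>] 0) (𝓝 (B x)) := by
    have hc : Continuous (fun t : ℝ => B ((1 + t) • x)) :=
      hs.comp ((continuous_const.add continuous_id).smul continuous_const)
    have h2 := (hc.tendsto 0).mono_left (nhdsWithin_le_nhds (s := Ioi (0 : ℝ)))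
    simpa using h2
  have ht' : Tendsto (fun t : ℝ => B ((1 + t) • x)) (𝓝[>] 0) (𝓝 B0) := by
    refine tendsto_const_nhds.congr' ?_
    filter_upwards [self_mem_nhdsWithin] with t ht
    have ht0 : (0 : ℝ) < t := ht
    rw [h1]
    rw [norm_smul, Real.norm_of_nonneg (by linarith)]
    nlinarith [mul_pos ht0 hx0]
  exact tendsto_nhds_unique ht ht'

/-- PACKET FIN. -/
theorem fin (hC : StmtCORE) (hAV : StmtAV) (hCW : StmtCW) : StmtFIN := by
  intro n hn η R hR hstd ho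
  obtain ⟨B, B0, R₁, hR₁, hB, _, hBη, hB0⟩ := hCW n η hstd
  have hfar : Far R B B0 := far_of_outside hR hB.smooth.continuous hBη hB0 ho
  have h12 : Standard η → Embeds η := by
    rintro ⟨φ, hφ, h⟩
    exact ⟨fun x => φ x, hφ.1, φ.injective, h⟩
  have h23 : Embeds η → EmbedsNear η R := by
    rintro ⟨ψ, hψ, hi, h⟩
    exact ⟨univ, ψ, isOpen_univ, subset_univ _, hψ.contDiffOn, hi.injOn, fun x _ => h x⟩
  have hcore : EmbedsNear η R → Iso univ B (fun _ => B0) ∧
      ∃ (Z : V n → V n →L[ℝ] V n →L[ℝ] ℝ) (ρ : ℝ) (q : V n) (K : Set (V n)), Symp Z ∧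
        Far ρ Z B0 ∧ R + ρ < ‖q‖ ∧ IsCompact K ∧ Iso K (ins B0 B Z q 1) (fun _ => B0) := by
    rintro ⟨U, ψ, hU, hRU, hψ, hi, h⟩
    exact hC n hn B B0 R ψ U hR hB hfar hU hRU hψ hi fun x hx u v => by
      rw [hB0, hBη, h x hx]
  have h31 : EmbedsNear η R → Standard η := by
    intro h3
    obtain ⟨⟨g, hg, _, hp⟩, _⟩ := hcore h3
    refine ⟨g, hg, fun x u v => ?_⟩
    rw [← hB0, ← hBη]
    exact hp x u v
  have h34 : EmbedsNear η R → Invertible η R True := by
    intro h3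
    obtain ⟨_, Z, ρ, q, K, hZ, hZf, hq, hK, g, hg, hgK, hp⟩ := hcore h3
    obtain ⟨L', hL'⟩ := hAV n
    have hZd : ∀ x u, fderiv ℝ (fun y => L' (Z y)) x u = L' (fderiv ℝ Z x u) := by
      intro x u
      have hd : HasFDerivAt Z (fderiv ℝ Z x) x :=
        (hZ.smooth.differentiable (by simp) x).hasFDerivAt
      have h0 : HasFDerivAt (fun a => L' a) L' (Z x) :=
        ContinuousLinearMap.hasFDerivAt (𝕜 := ℝ) (E := V n →L[ℝ] V n →L[ℝ] ℝ)
          (F := V n [⋀^Fin 2]→L[ℝ] ℝ) L'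
      have h1 : HasFDerivAt (fun y => L' (Z y)) (L'.comp (fderiv ℝ Z x)) x := by
        refine HasFDerivAt.comp (𝕜 := ℝ) (F := V n →L[ℝ] V n →L[ℝ] ℝ)
          (G := V n [⋀^Fin 2]→L[ℝ] ℝ) x ?_ hd
        exact h0
      rw [h1.fderiv]
      rfl
    have hZη : ∀ x u v, L' (Z x) ![u, v] = Z x u v := fun x u v =>
      hL' (Z x) (hZ.alt x) u v
    refine ⟨fun x => L' (Z x), ρ, q, g, ⟨?_, ?_, ?_, ?_⟩, ?_, hq, hg, fun _ => ⟨K, hK, hgK⟩, ?_⟩
    · have h0 : ContDiff ℝ ∞ (fun a => L' a) :=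
        ContinuousLinearMap.contDiff (𝕜 := ℝ) (E := V n →L[ℝ] V n →L[ℝ] ℝ)
          (F := V n [⋀^Fin 2]→L[ℝ] ℝ) L'
      exact h0.comp hZ.smooth
    · intro x u v w
      rw [hZd, hZd, hZd, hL' _ (fderiv_alt hZ.smooth hZ.alt x u),
        hL' _ (fderiv_alt hZ.smooth hZ.alt x v), hL' _ (fderiv_alt hZ.smooth hZ.alt x w)]
      exact hZ.closed x u v w
    · intro x v hv
      by_contra hcon
      push Not at hcon
      refine hv (hZ.nondeg x v fun w => ?_)
      rw [← hZη]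
      exact hcon w
    · refine ⟨closedBall 0 ρ, isCompact_closedBall 0 ρ, fun x hx u v => ?_⟩
      have hx' : ρ < ‖x‖ := by
        rw [mem_closedBall, dist_zero_right, not_le] at hx
        exact hx
      rw [hZη, hZf x hx'.le, hB0]
    · intro x hx u v
      rw [hZη, hZf x hx.le, hB0]
    · intro x u v
      have h1 := hp x u v
      change B0 (fderiv ℝ (fun x => g x) x u) (fderiv ℝ (fun x => g x) x v) =
        Z x u v + (B ((1 : ℝ)⁻¹ • (x - q)) u v - B0 u v) at h1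
      rw [inv_one, one_smul, hB0, hB0, hBη] at h1
      rw [hZη]
      exact h1
  have h45 : Invertible η R True → Invertible η R False := by
    rintro ⟨η', R', q, φ, h1, h2, h3, h4, _, h6⟩
    exact ⟨η', R', q, φ, h1, h2, h3, h4, fun h => h.elim, h6⟩
  have h53 : Invertible η R False → EmbedsNear η R := by
    rintro ⟨η', R', q, φ, h1, h2, h3, h4, _, h6⟩
    refine ⟨ball 0 (‖q‖ - R'), fun x => φ (x + q), isOpen_ball,
      closedBall_subset_ball (by linarith), ?_, ?_, ?_⟩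
    · exact (h4.1.comp (contDiff_id.add contDiff_const)).contDiffOn
    · intro x _ y _ hxy
      exact add_right_cancel (φ.injective hxy)
    · intro x hx u v
      have hx' : ‖x‖ < ‖q‖ - R' := by
        rw [mem_ball, dist_zero_right] at hx
        exact hx
      have hfd : fderiv ℝ (fun y => φ (y + q)) x = fderiv ℝ (fun y => φ y) (x + q) :=
        fderiv_comp_add_right q
      have hq : R' < ‖x + q‖ := by
        have h7 : ‖q‖ ≤ ‖x + q‖ + ‖x‖ := by
          have := norm_sub_le (x + q) x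
          rwa [add_sub_cancel_left] at this
        linarith
      rw [hfd, h6 (x + q) u v, h2 (x + q) hq, add_sub_cancel_right]
      ring
  tfae_have 1 → 2 := h12
  tfae_have 2 → 3 := h23
  tfae_have 3 → 1 := h31
  tfae_have 3 → 4 := h34
  tfae_have 4 → 5 := h45
  tfae_have 5 → 3 := h53
  tfae_finish

end Pool.Agent.Helper13.SZ
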